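import Mathlib

set_option autoImplicit false

namespace Pool.Agent.Lib.MP_3fd808_co.MonoCycles

open Relation

universe u v

section Paths

variable {V : Type u}

theorem exists_walk {r : V → V → Prop} {a b : V} (h : ReflTransGen r a b) :
    ∃ (n : ℕ) (f : ℕ → V), f 0 = a ∧ f n = b ∧ ∀ i, i < n → r (f i) (f (i + 1)) := by
  induction h with
  | refl => exact ⟨0, fun _ => a, rfl, rfl, fun i hi => absurd hi (Nat.not_lt_zero i)⟩
  | @tail b d _ hbd ih =>
    obtain ⟨n, f, h0, hn, hs⟩ := ih
    refine ⟨n + 1, fun t => if t ≤ n then f t else d, by simpa using h0, by simp, ?_⟩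
    intro i hi
    by_cases hin : i < n
    · have h1 : i ≤ n := by omega
      have h2 : i + 1 ≤ n := by omega
      simpa [h1, h2] using hs i hin
    · have h1 : i = n := by omega
      subst h1
      simpa [hn] using hbd

theorem exists_simple {r : V → V → Prop} {a b : V} (h : ReflTransGen r a b) :
    ∃ (n : ℕ) (f : ℕ → V), f 0 = a ∧ f n = b ∧ (∀ i, i < n → r (f i) (f (i + 1))) ∧
      ∀ i j, i ≤ n → j ≤ n → f i = f j → i = j := by
  classical
  have hex := exists_walk h
  obtain ⟨f, h0, hn, hs⟩ := Nat.find_spec hex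
  set n := Nat.find hex with hndef
  have key : ∀ i j, i < j → j ≤ n → f i ≠ f j := by
    intro i j hij hj heq
    have hlt : n - (j - i) < n := by omega
    refine Nat.find_min hex hlt ⟨fun t => if t ≤ i then f t else f (t + (j - i)), by simpa using h0,
      ?_, ?_⟩
    · by_cases hc : n - (j - i) ≤ i
      · have h1 : n - (j - i) = i := by omega
        have h2 : j = n := by omega
        simp only [h1, le_refl, if_true]
        rw [heq, h2, hn]
      · have h1 : n - (j - i) + (j - i) = n := by omega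
        simp only [hc, if_false, h1, hn]
    · intro t ht
      by_cases h1 : t + 1 ≤ i
      · have h2 : t ≤ i := by omega
        simp only [h1, h2, if_true]
        exact hs t (by omega)
      · by_cases h2 : t ≤ i
        · have h3 : t = i := by omega
          have h4 : t + 1 + (j - i) = j + 1 := by omega
          simp only [h1, h2, if_true, if_false, h4]
          rw [h3, heq]
          exact hs j (by omega)
        · have h4 : t + 1 + (j - i) = t + (j - i) + 1 := by omega
          simp only [h1, h2, if_false, h4]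
          exact hs _ (by omega)
  refine ⟨n, f, h0, hn, hs, ?_⟩
  intro i j hi hj heq
  rcases lt_trichotomy i j with h1 | h1 | h1
  · exact absurd heq (key i j h1 hj)
  · exact h1
  · exact absurd heq.symm (key j i h1 hi)

theorem exists_top [Finite V] (r : V → V → Prop) (htr : ∀ x y z, r x y → r y z → r x z)
    (P : V → Prop) (hP : ∃ x, P x) : ∃ k, P k ∧ ∀ x, P x → r x k → r k x := by
  have hwf : WellFounded (fun x y => r x y ∧ ¬ r y x) := by
    have : IsTrans V (fun x y => r x y ∧ ¬ r y x) :=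
      ⟨fun x y z h1 h2 => ⟨htr _ _ _ h1.1 h2.1, fun h3 => h2.2 (htr _ _ _ h3 h1.1)⟩⟩
    have : Std.Irrefl (fun x y => r x y ∧ ¬ r y x) := ⟨fun x h => h.2 h.1⟩
    exact Finite.wellFounded_of_trans_of_irrefl _
  obtain ⟨k, hk, hmin⟩ := hwf.has_min {x | P x} hP
  refine ⟨k, hk, fun x hx hxk => ?_⟩
  by_contra hn
  exact hmin x hx ⟨hxk, hn⟩

end Paths

variable {V : Type u} {C : Type v}

/-- `v` reaches `w` by a monochromatic directed path. -/
def Reach (adj : V → V → Prop) (c : V → V → C) (v w : V) : Prop :=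
  ∃ a, TransGen (fun x y => adj x y ∧ c x y = a) v w

/-- Every directed cycle without red arcs is monochromatic. -/
def CyclesMono (adj : V → V → Prop) (c : V → V → C) (red : C) : Prop :=
  ∀ (k : ℕ) (f : ℕ → V), 3 ≤ k → (∀ i j : ℕ, i < k → j < k → f i = f j → i = j) →
    (∀ i : ℕ, i < k → adj (f i) (f ((i + 1) % k))) →
    (∀ i : ℕ, i < k → c (f i) (f ((i + 1) % k)) ≠ red) →
    ∀ i j : ℕ, i < k → j < k → c (f i) (f ((i + 1) % k)) = c (f j) (f ((j + 1) % k))

/-- A rainbow directed triangle. -/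
def Rainbow (adj : V → V → Prop) (c : V → V → C) : Prop :=
  ∃ x y z, adj x y ∧ adj y z ∧ adj z x ∧ c x y ≠ c y z ∧ c y z ≠ c z x ∧ c z x ≠ c x y

theorem back_reach {adj : V → V → Prop} {c : V → V → C} {red : C}
    (hasym : ∀ x y, adj x y → ¬ adj y x) (hm : CyclesMono adj c red) {x y : V} (hxy : adj x y)
    (hc : c x y ≠ red) (hB : ReflTransGen (fun a b => adj a b ∧ c a b ≠ red) y x) :
    Reach adj c y x := by
  obtain ⟨n, f, h0, hn, hs, hinj⟩ := exists_simple hB
  have hn0 : n ≠ 0 := by
    rintro rfl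
    rw [h0] at hn
    subst hn
    exact hasym _ _ hxy hxy
  have hn1 : n ≠ 1 := by
    rintro rfl
    have := (hs 0 (by omega)).1
    rw [h0, hn] at this
    exact hasym _ _ hxy this
  have hmod : ∀ i, i < n → (i + 1) % (n + 1) = i + 1 := fun i hi => Nat.mod_eq_of_lt (by omega)
  have harc : ∀ i, i < n + 1 →
      adj (f i) (f ((i + 1) % (n + 1))) ∧ c (f i) (f ((i + 1) % (n + 1))) ≠ red := by
    intro i hi
    by_cases hin : i < n
    · rw [hmod i hin]; exact hs i hin
    · have h1 : i = n := by omega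
      rw [h1, Nat.mod_self, h0, hn]
      exact ⟨hxy, hc⟩
  have hcol := hm (n + 1) f (by omega) (fun i j hi hj => hinj i j (by omega) (by omega))
    (fun i hi => (harc i hi).1) (fun i hi => (harc i hi).2)
  have hstep : ∀ i, i < n → adj (f i) (f (i + 1)) ∧ c (f i) (f (i + 1)) = c x y := by
    intro i hi
    refine ⟨(hs i hi).1, ?_⟩
    have := hcol i n (by omega) (by omega)
    rwa [hmod i hi, Nat.mod_self, h0, hn] at this
  have hall : ∀ i, i < n → TransGen (fun a b => adj a b ∧ c a b = c x y) (f 0) (f (i + 1)) := by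
    intro i
    induction i with
    | zero => exact fun hi => TransGen.single (hstep 0 hi)
    | succ i ih => exact fun hi => TransGen.tail (ih (by omega)) (hstep (i + 1) hi)
  refine ⟨c x y, ?_⟩
  have := hall (n - 1) (by omega)
  rwa [h0, show n - 1 + 1 = n by omega, hn] at this

/-- The structure of a critical tournament: every vertex misses exactly one vertex, and no proper
nonempty set is closed under the map to the missed vertex. -/
theorem critical [Finite V] (Q : V → V → Prop)
    (hno : ∀ v, ∃ w, w ≠ v ∧ ¬ Q v w)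
    (hcrit : ∀ Y : Set V, Y.Nonempty → Y ≠ Set.univ → ∃ v ∈ Y, ∀ w ∈ Y, w ≠ v → Q v w) :
    ∃ p : V → V, Function.Bijective p ∧ (∀ v, p v ≠ v ∧ ¬ Q v (p v)) ∧
      (∀ v w, w ≠ v → w ≠ p v → Q v w) ∧
      ∀ Y : Set V, Y.Nonempty → (∀ y ∈ Y, p y ∈ Y) → ∀ x, x ∈ Y := by
  have hg : ∀ x : V, ∃ g, g ≠ x ∧ ¬ Q g x ∧ ∀ w, w ≠ x → w ≠ g → Q g w := by
    intro x
    obtain ⟨w0, hw0, -⟩ := hno x
    obtain ⟨g, hg, hall⟩ := hcrit {y | y ≠ x} ⟨w0, hw0⟩ (by
      intro h
      have : x ∈ {y | y ≠ x} := by rw [h]; trivial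
      exact this rfl)
    refine ⟨g, hg, ?_, fun w hw hwg => hall w hw hwg⟩
    obtain ⟨w, hwg, hw⟩ := hno g
    by_cases hwx : w = x
    · rwa [hwx] at hw
    · exact absurd (hall w hwx hwg) hw
  choose g hg1 hg2 hg3 using hg
  have hinj : Function.Injective g := by
    intro x y hxy
    by_contra hne
    have h1 := hg3 x y (fun h => hne h.symm) (by rw [hxy]; exact (hg1 y).symm)
    rw [hxy] at h1
    exact hg2 y h1
  have hbij : Function.Bijective g := Finite.injective_iff_bijective.mp hinj
  let e := Equiv.ofBijective g hbij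
  have he : ∀ v, g (e.symm v) = v := fun v => e.apply_symm_apply v
  have h1 : ∀ v, e.symm v ≠ v ∧ ¬ Q v (e.symm v) := by
    intro v
    have a1 := hg1 (e.symm v)
    have a2 := hg2 (e.symm v)
    rw [he] at a1 a2
    exact ⟨a1.symm, a2⟩
  refine ⟨e.symm, e.symm.bijective, h1, ?_, ?_⟩
  · intro v w hwv hwp
    have := hg3 (e.symm v) w hwp (by rw [he]; exact hwv)
    rwa [he] at this
  · intro Y hY hcl x
    by_contra hx
    obtain ⟨v, hv, hall⟩ := hcrit Y hY (by
      intro h
      rw [h] at hx
      exact hx trivial)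
    exact (h1 v).2 (hall _ (hcl v hv) (h1 v).1)

theorem core [Finite V] [Nonempty V] {adj : V → V → Prop} {c : V → V → C} {red : C}
    (hasym : ∀ x y, adj x y → ¬ adj y x) (htot : ∀ x y, x ≠ y → adj x y ∨ adj y x)
    (hm : CyclesMono adj c red) (hr : ¬ Rainbow adj c)
    (hcrit : ∀ Y : Set V, Y.Nonempty → Y ≠ Set.univ →
      ∃ v ∈ Y, ∀ w ∈ Y, w ≠ v → Reach adj c v w) :
    ∃ v, ∀ w, w ≠ v → Reach adj c v w := by
  classical
  by_contra hno'
  have hno : ∀ v, ∃ w, w ≠ v ∧ ¬ Reach adj c v w := by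
    intro v
    by_contra h
    refine hno' ⟨v, fun w hw => ?_⟩
    by_contra h2
    exact h ⟨w, hw, h2⟩
  obtain ⟨p, hbij, hp1, hp2, hcl⟩ := critical (Reach adj c) hno hcrit
  obtain ⟨s, hs⟩ : ∃ s : V → V, ∀ v, p (s v) = v := ⟨_, Function.rightInverse_surjInv hbij.2⟩
  have hsp : ∀ v, s (p v) = v := fun v => hbij.1 (hs _)
  set R : V → V → Prop := ReflTransGen (fun a b => adj a b ∧ c a b = red) with hR
  set B : V → V → Prop := ReflTransGen (fun a b => adj a b ∧ c a b ≠ red) with hB
  have Rt : ∀ {x y z}, R x y → R y z → R x z := fun h1 h2 => ReflTransGen.trans h1 h2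
  have Bt : ∀ {x y z}, B x y → B y z → B x z := fun h1 h2 => ReflTransGen.trans h1 h2
  have Rr : ∀ x, R x x := fun _ => ReflTransGen.refl
  have Br : ∀ x, B x x := fun _ => ReflTransGen.refl
  have hcolB : ∀ {a : C} {v w : V}, a ≠ red →
      ReflTransGen (fun x y => adj x y ∧ c x y = a) v w → B v w := by
    intro a v w ha h
    induction h with
    | refl => exact Br _
    | tail _ h2 ih => exact ReflTransGen.tail ih ⟨h2.1, by rw [h2.2]; exact ha⟩
  have hRB : ∀ v w, w ≠ p v → R v w ∨ B v w := by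
    intro v w hw
    by_cases hwv : w = v
    · exact Or.inl (hwv ▸ Rr w)
    obtain ⟨a, ha⟩ := hp2 v w hwv hw
    by_cases har : a = red
    · subst har
      exact Or.inl ha.to_reflTransGen
    · exact Or.inr (hcolB har ha.to_reflTransGen)
  have hnR : ∀ v, ¬ R v (p v) := by
    intro v h
    rcases reflTransGen_iff_eq_or_transGen.mp h with h1 | h1
    · exact (hp1 v).1 h1
    · exact (hp1 v).2 ⟨red, h1⟩
  have hadj : ∀ v, adj (p v) v := by
    intro v
    rcases htot (p v) v (hp1 v).1 with h | h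
    · exact h
    · exact absurd ⟨c v (p v), TransGen.single ⟨h, rfl⟩⟩ (hp1 v).2
  have hredI : ∀ v, B v (p v) → R (p v) v := by
    intro v h
    by_cases hc : c (p v) v = red
    · exact ReflTransGen.single ⟨hadj v, hc⟩
    · exact absurd (back_reach hasym hm (hadj v) hc h) (hp1 v).2
  -- some vertex reaches its missed vertex by a walk without red arcs
  have hI : ∃ v, B v (p v) := by
    by_contra hI0
    have hI : ∀ v, ¬ B v (p v) := fun v h => hI0 ⟨v, h⟩
    obtain ⟨x, -, hx⟩ := exists_top B (fun _ _ _ => Bt) (fun _ => True) ⟨Classical.arbitrary V, trivial⟩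
    obtain ⟨k, hk, hmax⟩ := exists_top R (fun _ _ _ => Rt) (fun x => ¬ B (p x) x)
      ⟨x, fun h => hI x (hx _ trivial h)⟩
    have hred : R (p k) k := by
      by_cases hc : c (p k) k = red
      · exact ReflTransGen.single ⟨hadj k, hc⟩
      · exact absurd (ReflTransGen.single ⟨hadj k, hc⟩) hk
    have hy : B (p (p k)) (p k) := by
      by_contra h
      exact hnR k (hmax (p k) h hred)
    rcases hRB k (p (p k)) (hp1 (p k)).1 with h | h
    · exact hnR (p k) (Rt hred h)
    · exact hI k (Bt h hy)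
  obtain ⟨k, hk, hmax⟩ := exists_top B (fun _ _ _ => Bt) (fun v => B v (p v)) hI
  -- no missed pair inside the strong component of `k`
  have hZ : ∀ x, B k x → B x k → B k (p x) → ¬ B (p x) k := by
    intro x0 a1 a2 a3 a4
    have hall : ∀ x, B k x ∧ B x k ∧ B k (p x) ∧ B (p x) k := by
      by_contra hne
      obtain ⟨x1, hx1⟩ := not_forall.mp hne
      refine hcl {x | ¬ (B k x ∧ B x k ∧ B k (p x) ∧ B (p x) k)} ⟨x1, hx1⟩ ?_ x0 ⟨a1, a2, a3, a4⟩
      intro y hy hpy
      obtain ⟨b1, b2, b3, b4⟩ := hpy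
      have hyk : B y k := by
        rcases hRB y (p (p y)) (hp1 (p y)).1 with h | h
        · exact absurd (Rt h (hredI (p y) (Bt b2 b3))) (hnR y)
        · exact Bt h b4
      exact hy ⟨hmax y (Bt hyk b1) hyk, hyk, b1, b2⟩
    refine hnR k (hcl {w | R w (p k)} ⟨p k, Rr _⟩ ?_ k)
    intro y hy
    exact Rt (hredI y (Bt (hall y).2.1 (hall y).2.2.1)) hy
  have hu : ¬ B (p k) k := hZ k (Br k) (Br k) hk
  -- a vertex that does not reach `k` without red reaches the component of `k` in red
  have hlow : ∀ l x, ¬ B l k → B x k → x ≠ p l → R l x := by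
    intro l x h1 h2 h3
    rcases hRB l x h3 with h | h
    · exact h
    · exact absurd (Bt h h2) h1
  have hup : ∀ x w, B k x → ¬ B k w → w ≠ p x → R x w := by
    intro x w h1 h2 h3
    rcases hRB x w h3 with h | h
    · exact h
    · exact absurd (Bt h1 h) h2
  have hd : ∀ l, ¬ B l k → B k (p l) := by
    intro l h1
    by_contra h2
    have h3 : k ≠ p l := fun h => h2 (h ▸ Br k)
    exact hnR l (Rt (hlow l k h1 (Br k) h3) (hup k (p l) (Br k) h2 (fun h => h2 (h ▸ hk))))
  have hS : ∀ b, B k b → B b k → B k (p b) := by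
    intro b hb1 hb2
    by_contra hb3
    have hbk : b ≠ k := fun h => hb3 (h ▸ hk)
    obtain ⟨l, hl1, hl2⟩ : ∃ l, ¬ B l k ∧ B k l ∧ B (p l) k := by
      by_contra hne
      refine (hcl {x | B k x ∧ ¬ B x k} ⟨p k, hk, hu⟩ ?_ k).2 (Br k)
      intro y hy
      exact ⟨hd y hy.2, fun h => hne ⟨y, hy.2, hy.1, h⟩⟩
    obtain ⟨j, hj1, hj2⟩ : ∃ j, ¬ B k j ∧ B k (p j) := by
      by_contra hne
      refine hcl {x | ¬ B k x} ⟨p b, hb3⟩ ?_ k (Br k)
      intro y hy h
      exact hne ⟨y, hy, h⟩
    have hjk : ¬ B j k := fun h => hj1 (hmax j (Bt h hj2) h)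
    have hjs : R j (p l) := hlow j (p l) hjk hl2.2 (fun h => hj1 (hbij.1 h ▸ hl2.1))
    have fin : ∀ t, B k t → B t k → t ≠ p l → j ≠ p t → False := by
      intro t h1 h2 h3 h4
      exact hnR l (Rt (hlow l t hl1 h2 h3) (Rt (hup t j h1 hj1 h4) hjs))
    by_cases hlk : k = p l
    · obtain h | ⟨x, hx1, hx2⟩ := ReflTransGen.cases_head hb1
      · exact hbk h.symm
      obtain h | ⟨y, hy1, hy2⟩ := ReflTransGen.cases_tail hb2
      · exact hbk h.symm
      have hxk : x ≠ k := by
        rintro rfl
        exact hasym _ _ hx1.1 hx1.1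
      have hyk : y ≠ k := by
        rintro rfl
        exact hasym _ _ hy2.1 hy2.1
      have hxy : x ≠ y := by
        rintro rfl
        exact hasym _ _ hx1.1 hy2.1
      by_cases hjx : j = p x
      · refine fin y (Bt hb1 hy1) (ReflTransGen.single hy2) (hlk ▸ hyk) ?_
        intro h
        exact hxy (hbij.1 (hjx.symm.trans h))
      · exact fin x (ReflTransGen.single hx1) (Bt hx2 hb2) (hlk ▸ hxk) hjx
    · exact fin k (Br k) (Br k) hlk (fun h => hj1 (h ▸ hk))
  -- `k` reaches nothing else in red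
  have hA : ∀ w, R k w → w = k := by
    have step : ∀ y, ¬ R k y → y ≠ s k → ¬ R k (p y) := by
      intro y hy hyz h
      have h3 : k ≠ p y := fun h' => hyz (by rw [h', hsp])
      rcases hRB y k h3 with h4 | h4
      · exact hnR y (Rt h4 h)
      · have h5 : B k y := by
          by_cases h6 : y = p k
          · exact h6 ▸ hk
          · exact (hRB k y h6).resolve_left hy
        exact hy (Rt h (hredI y (Bt h4 (hS y h5 h4))))
    have hz : ¬ R k (s k) := by
      intro hz
      refine hcl {y | ¬ R k y} ⟨p k, hnR k⟩ ?_ k (Rr k)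
      intro y hy
      exact step y hy (fun h => hy (h ▸ hz))
    intro w hw
    have := hcl {y | y = k ∨ ¬ R k y} ⟨k, Or.inl rfl⟩ ?_ w
    · exact this.resolve_right (fun h => h hw)
    intro y hy
    rcases hy with hy | hy
    · exact Or.inr (hy ▸ hnR k)
    · by_cases hyz : y = s k
      · exact Or.inl (by rw [hyz, hs])
      · exact Or.inr (step y hy hyz)
  -- the final switch
  have hkz : adj k (s k) := by
    have := hadj (s k)
    rwa [hs] at this
  have hzk : ¬ B (s k) k := by
    intro h
    have h1 : B (s k) (p (s k)) := by rw [hs]; exact h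
    exact hZ (s k) (hmax _ h1 h) h (by rw [hs]) (by rw [hs])
  have hzu : p k ≠ s k := fun h => hasym _ _ hkz (h ▸ hadj k)
  obtain ⟨d, hd'⟩ := hp2 (s k) (p k) hzu (by rw [hs]; exact (hp1 k).1)
  have hdr : d ≠ red := by
    rintro rfl
    have := hnR (s k)
    rw [hs] at this
    exact this (Rt hd'.to_reflTransGen (hredI k hk))
  have hsw : ∀ y, ReflTransGen (fun x y => adj x y ∧ c x y = d) (s k) y →
      ReflTransGen (fun x y => adj x y ∧ c x y = d) y (p k) → adj k y := by
    intro y hy
    induction hy with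
    | refl => exact fun _ => hkz
    | @tail y y' h1 h2 ih =>
      intro h3
      have hky : adj k y := ih (ReflTransGen.head h2 h3)
      have hy'k : ¬ B y' k := fun h => hzk (Bt (hcolB hdr (h1.tail h2)) h)
      have hne : k ≠ y' := fun h => hy'k (h ▸ Br k)
      rcases htot k y' hne with h4 | h4
      · exact h4
      exfalso
      have c1 : c y' k = red := by
        by_contra h
        exact hy'k (ReflTransGen.single ⟨h4, h⟩)
      have c2 : c k y ≠ red := by
        intro h
        have := hA y (ReflTransGen.single ⟨hky, h⟩)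
        subst this
        exact hasym _ _ hky hky
      have c3 : c k y ≠ d := by
        intro h
        exact (hp1 k).2 ⟨d, TransGen.head' ⟨hky, h⟩ (ReflTransGen.head h2 h3)⟩
      refine hr ⟨k, y, y', hky, h2.1, h4, ?_, ?_, ?_⟩
      · rw [h2.2]; exact c3
      · rw [h2.2, c1]; exact hdr
      · rw [c1]; exact c2.symm
  exact hasym _ _ (hadj k) (hsw (p k) hd'.to_reflTransGen ReflTransGen.refl)

theorem main (n : ℕ) : ∀ (V : Type u) [Fintype V] [Nonempty V] (adj : V → V → Prop)
    (c : V → V → C) (red : C), Fintype.card V = n → (∀ x y, adj x y → ¬ adj y x) →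
    (∀ x y, x ≠ y → adj x y ∨ adj y x) → CyclesMono adj c red → ¬ Rainbow adj c →
    ∃ v, ∀ w, w ≠ v → Reach adj c v w := by
  induction n using Nat.strong_induction_on with
  | _ n ih =>
    intro V _ _ adj c red hn hasym htot hm hr
    classical
    refine core hasym htot hm hr ?_
    intro Y hY hne
    have : Nonempty Y := hY.to_subtype
    have hlt : Fintype.card Y < n := by
      rw [← hn]
      obtain ⟨x, hx⟩ := (Set.ne_univ_iff_exists_notMem Y).mp hne
      exact Fintype.card_subtype_lt (p := fun y => y ∈ Y) hx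
    obtain ⟨v, hv⟩ := ih _ hlt Y (fun a b => adj a.1 b.1) (fun a b => c a.1 b.1) red rfl
      (fun x y => hasym x.1 y.1) (fun x y h => htot x.1 y.1 (fun h' => h (Subtype.ext h')))
      (fun k f h3 hinj h1 h2 => hm k (fun i => (f i).1) h3
        (fun i j hi hj h => hinj i j hi hj (Subtype.ext h)) h1 h2)
      (fun ⟨x, y, z, h⟩ => hr ⟨x.1, y.1, z.1, h⟩)
    refine ⟨v.1, v.2, fun w hw hwv => ?_⟩
    obtain ⟨a, ha⟩ := hv ⟨w, hw⟩ (fun h => hwv (congrArg Subtype.val h))
    have lift : ∀ t : Y, TransGen (fun x y : Y => adj x.1 y.1 ∧ c x.1 y.1 = a) v t →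
        TransGen (fun x y => adj x y ∧ c x y = a) v.1 t.1 := by
      intro t ht
      induction ht with
      | single h => exact TransGen.single h
      | tail _ h ih => exact TransGen.tail ih h
    exact ⟨a, lift _ ha⟩

end Pool.Agent.Lib.MP_3fd808_co.MonoCycles
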