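import Mathlib
import Pool.Agent.Lib.MP_3fd808_co.MonoCycles

set_option autoImplicit false

namespace Pool.Agent.Lib.MP_3fd808_co.TwoClasses

open Relation Pool.Agent.Lib.MP_3fd808_co.MonoCycles

universe u v

variable {V : Type u} {C : Type v}

/-- Every directed cycle has an arc whose colour satisfies `t`. -/
def Hits (adj : V → V → Prop) (c : V → V → C) (t : C → Prop) : Prop :=
  ∀ (k : ℕ) (f : ℕ → V), 3 ≤ k → (∀ i j : ℕ, i < k → j < k → f i = f j → i = j) →
    (∀ i : ℕ, i < k → adj (f i) (f ((i + 1) % k))) →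
    ∃ i : ℕ, i < k ∧ t (c (f i) (f ((i + 1) % k)))

theorem no_back {adj : V → V → Prop} {c : V → V → C} {t s : C → Prop}
    (hasym : ∀ x y, adj x y → ¬ adj y x) (hm : Hits adj c t) (hst : ∀ a, s a → ¬ t a) {x y : V}
    (hxy : adj x y) (hc : s (c x y)) :
    ¬ ReflTransGen (fun a b => adj a b ∧ s (c a b)) y x := by
  intro hB
  obtain ⟨n, f, h0, hn, hs, hinj⟩ := exists_simple hB
  have hn0 : n ≠ 0 := by
    rintro rfl
    rw [h0] at hn
    subst hn
    exact hasym _ _ hxy hxy
  have hn1 : n ≠ 1 := by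
    rintro rfl
    have := (hs 0 (by omega)).1
    rw [h0, hn] at this
    exact hasym _ _ hxy this
  have hmod : ∀ i, i < n → (i + 1) % (n + 1) = i + 1 := fun i hi => Nat.mod_eq_of_lt (by omega)
  have harc : ∀ i, i < n + 1 →
      adj (f i) (f ((i + 1) % (n + 1))) ∧ s (c (f i) (f ((i + 1) % (n + 1)))) := by
    intro i hi
    by_cases hin : i < n
    · rw [hmod i hin]; exact hs i hin
    · have h1 : i = n := by omega
      rw [h1, Nat.mod_self, h0, hn]
      exact ⟨hxy, hc⟩
  obtain ⟨i, hi, ht⟩ := hm (n + 1) f (by omega)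
    (fun i j hi hj => hinj i j (by omega) (by omega)) (fun i hi => (harc i hi).1)
  exact hst _ (harc i hi).2 ht

theorem core [Finite V] [Nonempty V] {adj : V → V → Prop} {c : V → V → C} {t : C → Prop}
    (hasym : ∀ x y, adj x y → ¬ adj y x) (htot : ∀ x y, x ≠ y → adj x y ∨ adj y x)
    (h1 : Hits adj c t) (h2 : Hits adj c (fun a => ¬ t a)) (hr : ¬ Rainbow adj c)
    (hcrit : ∀ Y : Set V, Y.Nonempty → Y ≠ Set.univ →
      ∃ v ∈ Y, ∀ w ∈ Y, w ≠ v → Reach adj c v w) :
    ∃ v, ∀ w, w ≠ v → Reach adj c v w := by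
  classical
  by_contra hno'
  have hno : ∀ v, ∃ w, w ≠ v ∧ ¬ Reach adj c v w := by
    intro v
    by_contra h
    refine hno' ⟨v, fun w hw => ?_⟩
    by_contra h3
    exact h ⟨w, hw, h3⟩
  obtain ⟨p, hbij, hp1, hp2, -⟩ := critical (Reach adj c) hno hcrit
  obtain ⟨s, hs⟩ : ∃ s : V → V, ∀ v, p (s v) = v := ⟨_, Function.rightInverse_surjInv hbij.2⟩
  set R : V → V → Prop := ReflTransGen (fun a b => adj a b ∧ t (c a b)) with hR
  set B : V → V → Prop := ReflTransGen (fun a b => adj a b ∧ ¬ t (c a b)) with hB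
  have Rt : ∀ {x y z}, R x y → R y z → R x z := fun a b => ReflTransGen.trans a b
  have Bt : ∀ {x y z}, B x y → B y z → B x z := fun a b => ReflTransGen.trans a b
  have nR : ∀ x y, adj x y → t (c x y) → ¬ R y x := fun x y a b =>
    no_back hasym h2 (fun _ h h' => h' h) a b
  have nB : ∀ x y, adj x y → ¬ t (c x y) → ¬ B y x := fun x y a b =>
    no_back (s := fun a => ¬ t a) hasym h1 (fun _ h => h) a b
  have aR : ∀ x y, R x y → R y x → x = y := by
    intro x y a b
    obtain h | ⟨w, hw1, hw2⟩ := ReflTransGen.cases_head a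
    · exact h
    · exact absurd (Rt hw2 b) (nR x w hw1.1 hw1.2)
  have aB : ∀ x y, B x y → B y x → x = y := by
    intro x y a b
    obtain h | ⟨w, hw1, hw2⟩ := ReflTransGen.cases_head a
    · exact h
    · exact absurd (Bt hw2 b) (nB x w hw1.1 hw1.2)
  have hRB : ∀ v w, w ≠ p v → R v w ∨ B v w := by
    intro v w hw
    by_cases hwv : w = v
    · exact Or.inl (hwv ▸ ReflTransGen.refl)
    obtain ⟨a, ha⟩ := hp2 v w hwv hw
    have ha' := ha.to_reflTransGen
    clear ha hwv hw
    by_cases har : t a
    · left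
      induction ha' with
      | refl => exact ReflTransGen.refl
      | tail _ h ih => exact ReflTransGen.tail ih ⟨h.1, by rw [h.2]; exact har⟩
    · right
      induction ha' with
      | refl => exact ReflTransGen.refl
      | tail _ h ih => exact ReflTransGen.tail ih ⟨h.1, by rw [h.2]; exact har⟩
  have hadj : ∀ v, adj (p v) v := by
    intro v
    rcases htot (p v) v (hp1 v).1 with h | h
    · exact h
    · exact absurd ⟨c v (p v), TransGen.single ⟨h, rfl⟩⟩ (hp1 v).2
  obtain ⟨a, -, ha'⟩ := exists_top B (fun _ _ _ => Bt) (fun _ => True)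
    ⟨Classical.arbitrary V, trivial⟩
  obtain ⟨z, -, hz'⟩ := exists_top (fun x y => R y x) (fun _ _ _ a b => Rt b a) (fun _ => True)
    ⟨Classical.arbitrary V, trivial⟩
  have ha : ∀ x, B x a → x = a := fun x h => aB _ _ h (ha' x trivial h)
  have hz : ∀ x, R z x → x = z := fun x h => aR _ _ (hz' x trivial h) h
  have hne : ∀ {x y}, adj x y → x ≠ y := by
    rintro x y h rfl
    exact hasym _ _ h h
  have hin : ∀ x, adj x a → t (c x a) := by
    intro x h
    by_contra h'
    exact hne h (ha x (ReflTransGen.single ⟨h, h'⟩))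
  have hout : ∀ x, adj z x → ¬ t (c z x) := fun x h h' =>
    hne h (hz x (ReflTransGen.single ⟨h, h'⟩)).symm
  obtain ⟨k, hk1, hk2⟩ : ∃ k, (∀ x, adj x k → t (c x k)) ∧ ∀ x, adj k x → ¬ t (c k x) := by
    by_cases haz : a = p z
    · by_cases hc : t (c a z)
      · refine ⟨z, fun x hx => ?_, hout⟩
        by_contra h'
        have hxa : x ≠ p z := by
          rw [← haz]
          rintro rfl
          exact h' hc
        rcases hRB z x hxa with h | h
        · exact hne hx (hz x h)
        · exact nB x z hx h' h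
      · refine ⟨a, hin, fun x hx h' => ?_⟩
        have hxz : a ≠ p x := by
          intro h
          have : z = x := hbij.1 (haz.symm.trans h)
          subst this
          exact hc h'
        rcases hRB x a hxz with h | h
        · exact nR a x hx h' h
        · exact hne hx (ha x h).symm
    · have : a = z := by
        rcases hRB z a haz with h | h
        · exact hz a h
        · exact (ha z h).symm
      subst this
      exact ⟨a, hin, hout⟩
  have hkz : adj k (s k) := by
    have := hadj (s k)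
    rwa [hs] at this
  have hzk : ¬ Reach adj c (s k) k := by
    have := (hp1 (s k)).2
    rwa [hs] at this
  have hzu : p k ≠ s k := fun h => hasym _ _ hkz (h ▸ hadj k)
  obtain ⟨d, hd⟩ := hp2 (s k) (p k) hzu (by rw [hs]; exact (hp1 k).1)
  have hsw : ∀ y, ReflTransGen (fun x y => adj x y ∧ c x y = d) (s k) y →
      ReflTransGen (fun x y => adj x y ∧ c x y = d) y (p k) → adj k y := by
    intro y hy
    induction hy with
    | refl => exact fun _ => hkz
    | @tail y y' g1 g2 ih =>
      intro g3
      have hky : adj k y := ih (ReflTransGen.head g2 g3)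
      have hne' : k ≠ y' := by
        rintro rfl
        exact hasym _ _ hky g2.1
      rcases htot k y' hne' with g4 | g4
      · exact g4
      exfalso
      have c3 : c k y ≠ d := by
        intro h
        exact (hp1 k).2 ⟨d, TransGen.head' ⟨hky, h⟩ (ReflTransGen.head g2 g3)⟩
      have c4 : c y' k ≠ d := by
        intro h
        exact hzk ⟨d, TransGen.tail' (g1.tail g2) ⟨g4, h⟩⟩
      refine hr ⟨k, y, y', hky, g2.1, g4, ?_, ?_, ?_⟩
      · rw [g2.2]; exact c3
      · rw [g2.2]; exact c4.symm
      · intro h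
        exact hk2 y hky (h ▸ hk1 y' g4)
  exact hasym _ _ (hadj k) (hsw (p k) hd.to_reflTransGen ReflTransGen.refl)

theorem main (n : ℕ) : ∀ (V : Type u) [Fintype V] [Nonempty V] (adj : V → V → Prop)
    (c : V → V → C) (t : C → Prop), Fintype.card V = n → (∀ x y, adj x y → ¬ adj y x) →
    (∀ x y, x ≠ y → adj x y ∨ adj y x) → Hits adj c t → Hits adj c (fun a => ¬ t a) →
    ¬ Rainbow adj c → ∃ v, ∀ w, w ≠ v → Reach adj c v w := by
  induction n using Nat.strong_induction_on with
  | _ n ih =>
    intro V _ _ adj c t hn hasym htot h1 h2 hr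
    classical
    refine core hasym htot h1 h2 hr ?_
    intro Y hY hne
    have : Nonempty Y := hY.to_subtype
    have hlt : Fintype.card Y < n := by
      rw [← hn]
      obtain ⟨x, hx⟩ := (Set.ne_univ_iff_exists_notMem Y).mp hne
      exact Fintype.card_subtype_lt (p := fun y => y ∈ Y) hx
    obtain ⟨v, hv⟩ := ih _ hlt Y (fun a b => adj a.1 b.1) (fun a b => c a.1 b.1) t rfl
      (fun x y => hasym x.1 y.1) (fun x y h => htot x.1 y.1 (fun h' => h (Subtype.ext h')))
      (fun k f h3 hinj g => h1 k (fun i => (f i).1) h3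
        (fun i j hi hj h => hinj i j hi hj (Subtype.ext h)) g)
      (fun k f h3 hinj g => h2 k (fun i => (f i).1) h3
        (fun i j hi hj h => hinj i j hi hj (Subtype.ext h)) g)
      (fun ⟨x, y, z, h⟩ => hr ⟨x.1, y.1, z.1, h⟩)
    refine ⟨v.1, v.2, fun w hw hwv => ?_⟩
    obtain ⟨a, ha⟩ := hv ⟨w, hw⟩ (fun h => hwv (congrArg Subtype.val h))
    have lift : ∀ r : Y, TransGen (fun x y : Y => adj x.1 y.1 ∧ c x.1 y.1 = a) v r →
        TransGen (fun x y => adj x y ∧ c x y = a) v.1 r.1 := by
      intro r ht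
      induction ht with
      | single h => exact TransGen.single h
      | tail _ h ih => exact TransGen.tail ih h
    exact ⟨a, lift _ ha⟩

end Pool.Agent.Lib.MP_3fd808_co.TwoClasses
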